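import Pool.Agent.Helper51.LPS.St
import Pool.Agent.Helper8.LE.Meas
import Pool.Agent.Helper8.LE.Ball

/-!
# Project LPS (MP_26ac92_gt): assembly
-/

set_option autoImplicit false

namespace Pool.Helper51.LPS

open MeasureTheory

theorem main (hTrl : StTrl) (hFlat : StFlat) (hSec : StSec) (n : ℕ) (hn : 3 ≤ n)
    (K : Set (EuclideanSpace ℝ (Fin n))) (hcv : Convex ℝ K) (hK : IsCompact K) (hint : (interior K).Nonempty)
    (e : EuclideanSpace ℝ (Fin n)) (ε : ℝ) (p : MvPolynomial (Fin n) ℝ) (he : ‖e‖ = 1) (hε : 0 < ε)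
    (hp : ∀ u : EuclideanSpace ℝ (Fin n), ‖u‖ = 1 → |(inner ℝ u e : ℝ)| < ε →
      IsLUB ((fun x => (inner ℝ x u : ℝ)) '' K) (MvPolynomial.eval (fun l => u l) p))
    (a b : ENNReal)
    (ha : ∀ u : EuclideanSpace ℝ (Fin n), ‖u‖ = 1 →
      Measure.hausdorffMeasure ((n : ℝ) - 1) ((fun x : EuclideanSpace ℝ (Fin n) => x - (inner ℝ x u : ℝ) • u) '' K) = a)
    (hb : ∀ u : EuclideanSpace ℝ (Fin n), ‖u‖ = 1 →
      (⨆ t : ℝ, Measure.hausdorffMeasure ((n : ℝ) - 1)
        (K ∩ {x : EuclideanSpace ℝ (Fin n) | (inner ℝ x u : ℝ) = t})) = b) :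
    ∃ (c : EuclideanSpace ℝ (Fin n)) (r : ℝ), 0 < r ∧ K = Metric.closedBall c r := by
  have hd : (0 : ℝ) ≤ (n : ℝ) - 1 := by
    have h3 : (3 : ℝ) ≤ (n : ℝ) := by exact_mod_cast hn
    linarith
  obtain ⟨c, r, hc⟩ := hTrl n hn K p a e ε hcv hK hint he hε hp ha
  have hab : a ≤ b := by
    have h1 := hFlat n (by omega) K e c r ε ((n : ℝ) - 1) hcv hK (hint.mono interior_subset) he hε hd hc
    rw [ha e he] at h1
    refine h1.trans ?_
    rw [← hb e he]
    exact le_iSup (fun t : ℝ => Measure.hausdorffMeasure ((n : ℝ) - 1)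
        (K ∩ {x : EuclideanSpace ℝ (Fin n) | (inner ℝ x e : ℝ) = t})) (inner ℝ c e : ℝ)
  have hba : b ≤ a := by
    rw [← hb e he, ← ha e he]
    exact iSup_le fun t => hSec n K e ((n : ℝ) - 1) t hd he
  have hEq : b = a := le_antisymm hba hab
  have key : ∃ (c : EuclideanSpace ℝ (Fin n)) (r : ℝ), K = Metric.closedBall c r := by
    obtain ⟨m, rfl⟩ : ∃ m, n = m + 1 := ⟨n - 1, by omega⟩
    have hcast : (((m + 1 : ℕ) : ℝ) - 1) = (m : ℝ) := by push_cast; ring
    rw [hcast] at ha hb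
    refine Pool.Helper8.LE.geo hn hK hcv (hint.mono interior_subset) (U := Set.univ) isOpen_univ ?_ ?_
    · intro e' _
      obtain ⟨v, hv1, hv2, -⟩ := Pool.Helper8.LE.exists_one hn e' e'
      refine ⟨v, subset_closure ⟨Set.mem_univ _, by simpa using hv1⟩, ?_⟩
      rw [real_inner_comm]
      exact hv2
    · intro u _ hu1
      refine Pool.Helper8.LE.meas (by omega) hK hcv hint hu1 ?_
      rw [ha u hu1]
      exact (hb u hu1).trans hEq
  obtain ⟨c', r', h⟩ := key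
  refine ⟨c', r', ?_, h⟩
  by_contra hr
  rw [not_lt] at hr
  have h1 : K ⊆ {c'} := by
    rw [h]
    intro x hx
    rw [Metric.mem_closedBall] at hx
    rw [Set.mem_singleton_iff, ← dist_le_zero]
    exact hx.trans hr
  have : Nonempty (Fin n) := ⟨⟨0, by omega⟩⟩
  have : Nontrivial (EuclideanSpace ℝ (Fin n)) := inferInstance
  have h2 : interior K ⊆ interior {c'} := interior_mono h1
  rw [interior_singleton] at h2
  obtain ⟨x, hx⟩ := hint
  exact h2 hx

end Pool.Helper51.LPS
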