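import Pool.Agent.Helper51.PSB.Main

/-!
# Project LPS (MP_26ac92_gt, owner helper51): the support function is a polynomial near one great sphere
Statements with complete proofs.

THEOREM.  Let `n ≥ 3`, `K` a convex body in `ℝ^n` whose projection body and cross-section body are balls.  If for one unit
vector `e` the support function of `K` is a polynomial on the unit vectors `u` with `|⟪u, e⟫| < ε`, then `K` is a ball.

All definitions are those of project PSB (`Pool.Agent.Helper51.PSB.Defs`, `St`, `Main`); every module here is a local version of a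
module of PSB.  `n = k + 3`, `W k = ℝ^(k+3)`, `V k = ℝ^(k+2)`.
-/

set_option autoImplicit false

namespace Pool.Helper51.LPS

open MeasureTheory Pool.Helper51.PSB

/-- MODULE CONSTL.  The brightness in the direction `u` as an integral; only the support function on the unit vectors orthogonal to `u` is used.
Proof: copy of `Pool/Agent/Helper51/PSB/M_Const.lean` (`pConst`; use `qVolB`, `qVolE`, `qGrd`, `qGeo` of PSB/Main; the lemmas `Const_haar`, `Const_hat_le`, `Const_hat_meas`, `Const_R0`, `Const_Mat` there are public);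
the hypothesis `hlub` is only used at `J (‖y‖⁻¹ • y)`, which is a unit vector orthogonal to `u` (`hJu`, `real_inner_comm`). -/
def StConstL : Prop := ∀ (k a b : ℕ) (K : Set (W k)) (P Q : MvPolynomial (Fin (k + 3)) ℝ) (A : ENNReal), Convex ℝ K → IsCompact K →
  (0 : W k) ∈ interior K → P.IsHomogeneous a → Q.IsHomogeneous b →
  ∀ (w : Fin (k + 3) → Fin (k + 3) → ℝ) (φ : ℝ) (J : V k →ₗᵢ[ℝ] W k) (u : W k), ‖u‖ = 1 → (∀ y, (inner ℝ (J y) u : ℝ) = 0) →
  (∀ i l, J (EuclideanSpace.single i (1 : ℝ)) l = frame w φ i l) →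
  (∀ v : W k, ‖v‖ = 1 → (inner ℝ v u : ℝ) = 0 → IsLUB ((fun x => (inner ℝ x v : ℝ)) '' K)
    (MvPolynomial.eval (fun l => v l) P + MvPolynomial.eval (fun l => v l) Q)) →
  Measure.hausdorffMeasure ((k : ℝ) + 2) ((fun x : W k => x - (inner ℝ x u : ℝ) • u) '' K) = A →
  ∫ y in Metric.ball 0 1, (Mat a P (frame w φ) (hat y) + Mat b Q (frame w φ) (hat y)).det
    ∂(Measure.hausdorffMeasure ((k : ℝ) + 2) : Measure (V k)) = A.toReal

/-- MODULE EXT.  The integral is a trigonometric polynomial in `φ`: constant on an interval, hence constant.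
Proof: as in `Pool/Agent/Helper51/PSB/M_Coef.lean` (its lemmas are private: copy `Coef_N`, `Coef_deg`, `Coef_eval`, `Coef_int`, `Coef_circle`): there are `κ_i` (`i < n`) with
`∑ i < n, κ_i z^i = (∫ det (..φ..)) z^(max a b (k+2))` for `z = exp (i φ)` and EVERY `φ` (this is `hsum` there without the last step `hc φ`).  The polynomial
`p = ∑ κ_i X^i - C c X^(max a b (k+2))` vanishes at `exp (i φ)` for `|φ| < δ`: infinitely many roots (in `Coef_circle` replace `1/(n+1)` by `δ'/(n+1)`, `δ' = min δ 1 / 2`), so `p = 0`, and for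
every `φ` we get `(∫ det) z^(..) = c z^(..)`, `z ≠ 0`. -/
def StExt : Prop := ∀ (k a b : ℕ) (μ : Measure (V k)) (P Q : MvPolynomial (Fin (k + 3)) ℝ) (w : Fin (k + 3) → Fin (k + 3) → ℝ) (c δ : ℝ),
  μ.IsAddHaarMeasure → P.IsHomogeneous a → Q.IsHomogeneous b → 0 < δ →
  (∀ φ : ℝ, |φ| < δ → ∫ y in Metric.ball 0 1, (Mat a P (frame w φ) (hat y) + Mat b Q (frame w φ) (hat y)).det ∂μ = c) →
  ∀ φ : ℝ, ∫ y in Metric.ball 0 1, (Mat a P (frame w φ) (hat y) + Mat b Q (frame w φ) (hat y)).det ∂μ = c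

/-- MODULE ALG0.  As `StAlgDiv`, but only for the pairs with second vector `e_0 = (1, 0, .., 0)`.
Proof: copy of `Pool/Agent/Helper51/PSB/M_AlgDiv.lean`: the hypothesis is used there only for `Fin.cons 0 (fun l => y l / ρ)` and `Fin.cons 1 (fun _ => 0)`. -/
def StAlg0 : Prop := ∀ (k d : ℕ) (P : MvPolynomial (Fin (k + 3)) ℝ), P.IsHomogeneous d →
  (∀ e : Fin (k + 3) → ℝ, ∑ l, e l ^ 2 = 1 → e 0 = 0 →
    MvPolynomial.aeval (fun l => ((e l : ℂ) - Complex.I * (if l = 0 then 1 else 0)) / 2) P = 0) → qf k ∣ P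

/-- MODULE ALGR.  The same for an arbitrary fixed unit vector `f` as second vector.
Proof.  Choose an orthonormal basis `b` of `W k` with `b 0 = f` (`Orthonormal.exists_orthonormalBasis_extension_of_card_eq`, compare PSB/M_Fr.lean) and let `R l i = b i l` (an orthogonal matrix).
`P' = aeval (fun l => ∑ i, C (R l i) * X i) P` is homogeneous of degree `d`.  For `e` with `∑ e² = 1`, `e 0 = 0`: `P' ((e - i e_0)/2) = P ((R e - i f)/2) = 0`, because `R e` is a unit vector orthogonal to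
`R e_0 = f`.  By StAlg0 `qf ∣ P'`.  Apply the algebra homomorphism `aeval (fun i => ∑ l, C (R l i) * X l)` (the inverse, `Rᵀ`): it maps `P'` to `P` and `qf` to `qf` (`∑_i (∑_l R l i X_l)² = ∑_l X_l²`). -/
def StAlgR : Prop := ∀ (k d : ℕ) (P : MvPolynomial (Fin (k + 3)) ℝ), P.IsHomogeneous d →
  ∀ f : Fin (k + 3) → ℝ, ∑ l, f l ^ 2 = 1 →
  (∀ e : Fin (k + 3) → ℝ, ∑ l, e l ^ 2 = 1 → ∑ l, e l * f l = 0 →
    MvPolynomial.aeval (fun l => ((e l : ℂ) - Complex.I * (f l : ℂ)) / 2) P = 0) → qf k ∣ P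

/-- MODULE BAND.  The unit vectors orthogonal to `u(φ)` are close to the great sphere orthogonal to `f = w 1`.
Proof.  The range of `J` is contained in `u^⊥` and both have dimension `k + 2`, so `v = J y` with `‖y‖ = 1` (compare `J (J^* x) = x - ⟪x, u⟫ u` in PSB/M_Geo.lean).
`y = ∑ i, y i • single i 1`, so `v l = ∑ i, y i * frame w φ i l` and `∑ l, v l * w 1 l = ∑ i, y i * ∑ l, frame w φ i l * w 1 l = y 0 * sin φ`: indeed `∑ l, frame w φ 0 l * w 1 l = cos φ * ∑ w 0 l * w 1 l + sin φ * ∑ (w 1 l)² = sin φ`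
by the hypotheses `h01`, `h11`, and `∑ l, w i.succ l * w 1 l = 0` for `i ≠ 0` by `hi1`.  `|y 0| ≤ ‖y‖ = 1`, `|sin φ| ≤ |φ|`. -/
def StBand : Prop := ∀ (k : ℕ) (w : Fin (k + 3) → Fin (k + 3) → ℝ) (φ : ℝ) (J : V k →ₗᵢ[ℝ] W k) (u : W k), ‖u‖ = 1 →
  (∀ y, (inner ℝ (J y) u : ℝ) = 0) → (∀ i l, J (EuclideanSpace.single i (1 : ℝ)) l = frame w φ i l) →
  ∑ l, w 1 l ^ 2 = 1 → ∑ l, w 0 l * w 1 l = 0 → (∀ i : Fin (k + 2), i ≠ 0 → ∑ l, w i.succ l * w 1 l = 0) →
  ∀ v : W k, ‖v‖ = 1 → (inner ℝ v u : ℝ) = 0 → |∑ l, v l * w 1 l| ≤ |φ|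

/-- MODULE FRO.  The frames of `StFr` are orthonormal (a stronger form of `StFr`).
Proof: copy of `Pool/Agent/Helper51/PSB/M_Fr.lean`: there `w` is an orthonormal basis with `w 0 = e`, `w 1 = f`; for `i : Fin (k + 2)`, `i ≠ 0`, `i.succ ≠ 1`. -/
def StFrO : Prop := ∀ (k : ℕ) (e f : Fin (k + 3) → ℝ), ∑ l, e l ^ 2 = 1 → ∑ l, f l ^ 2 = 1 → ∑ l, e l * f l = 0 →
  ∃ w : Fin (k + 3) → Fin (k + 3) → ℝ, w 0 = e ∧ w 1 = f ∧ (∀ i : Fin (k + 2), i ≠ 0 → ∑ l, w i.succ l * w 1 l = 0) ∧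
    ∀ φ : ℝ, ∃ (J : V k →ₗᵢ[ℝ] W k) (u : W k),
    ‖u‖ = 1 ∧ (∀ y, (inner ℝ (J y) u : ℝ) = 0) ∧ ∀ i l, J (EuclideanSpace.single i (1 : ℝ)) l = frame w φ i l

/-- MODULE ZEROL.  The support function is `⟪c, u⟫ + r` near the great sphere.
Proof: as `pZero` in `Pool/Agent/Helper51/PSB/M_Zero.lean` (copy its private lemmas).  `qMin` for `p`: `P`, `Q`, odd `a`, even `b`.  Let `f l = e l`.  For a unit vector `e1` with `∑ e1 l * f l = 0`: `w` from StFrO for
`(e1, f)`; for `|φ| < ε` let `J`, `u` be as there; by StBand every unit `v` with `⟪v, u⟫ = 0` has `|⟪v, e⟫| ≤ |φ| < ε` (`⟪v, e⟫ = ∑ l, v l * e l`), so StConstL gives `∫ det = A.toReal` for `|φ| < ε`, and StExt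
(`μ` the Hausdorff measure, `δ = ε`) gives it for all `φ`.  `qCore`: `a < b` implies `Q ((e1 - i f)/2) = 0`, and `b < a`, `3 ≤ a` implies `P Q ((e1 - i f)/2) = 0`, for all such `e1`.
StAlgR for `Q` or `P * Q`; the rest as in `pZero` (`qAlgPrime`; if `b = 0` and `Q = 0`: use a unit vector `e1` orthogonal to `e` and `-e1`, both in the band, instead of `single 0 1`; `k + 3 ≥ 2`, so such `e1` exists).
So `a = 1`, `b = 0`: `P = ∑ c_l X_l`, `Q = C r`. -/
def StZeroL : Prop := ∀ (k : ℕ) (K : Set (W k)) (p : MvPolynomial (Fin (k + 3)) ℝ) (A : ENNReal) (e : W k) (ε : ℝ),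
  Convex ℝ K → IsCompact K → (0 : W k) ∈ interior K → ‖e‖ = 1 → 0 < ε →
  (∀ u : W k, ‖u‖ = 1 → |(inner ℝ u e : ℝ)| < ε →
    IsLUB ((fun x => (inner ℝ x u : ℝ)) '' K) (MvPolynomial.eval (fun l => u l) p)) →
  (∀ u : W k, ‖u‖ = 1 → Measure.hausdorffMeasure ((k : ℝ) + 2) ((fun x : W k => x - (inner ℝ x u : ℝ) • u) '' K) = A) →
  ∃ (c : W k) (r : ℝ), ∀ u : W k, ‖u‖ = 1 → |(inner ℝ u e : ℝ)| < ε →
    IsLUB ((fun x => (inner ℝ x u : ℝ)) '' K) ((inner ℝ c u : ℝ) + r)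

/-- MODULE FLAT.  If the support function is `⟪c, u⟫ + r` near the great sphere orthogonal to `e`, the section of `K` through `c` orthogonal to `e` is as large as the projection.
Proof.  Put `x' = x - ⟪x, e⟫ e`, `c' = c - ⟪c, e⟫ e`.  (1) `‖x' - c'‖ ≤ r` for `x ∈ K`: if `x' ≠ c'` let `v = (x' - c') / ‖x' - c'‖`, a unit vector orthogonal to `e`, `⟪x - c, v⟫ ≤ r` and `⟪x - c, v⟫ = ‖x' - c'‖`;
and `0 ≤ r` (take `x ∈ K`; if `x' = c'` use any unit `v` orthogonal to `e`, it exists since `2 ≤ n`).  (2) `c + r v ∈ K` for every unit `v` orthogonal to `e`: `K` is compact and nonempty, so some `z ∈ K` has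
`⟪z, v⟫ = ⟪c, v⟫ + r` (`IsCompact.exists_isMaxOn`, `IsLUB`).  Let `y = z - c`, `⟪y, v⟫ = r`.  For a unit vector `t` orthogonal to `v` and small `|s|` the unit vector `cos s v + sin s t` is in the band, so
`cos s * r + sin s * ⟪y, t⟫ ≤ r` for all small `|s|`; dividing by `s` (`(1 - cos s)/s → 0`; or use `1 - cos s ≤ s²/2` and `sin s ≥ s/2`) gives `⟪y, t⟫ = 0`.  So `y = ⟪y, v⟫ v = r v` (apply it to
`t = (y - ⟪y, v⟫ v)/‖..‖` if this is nonzero).  (3) For `x ∈ K` the point `x' + ⟪c, e⟫ e = c + (x' - c')` is in `K`: `x' - c' = τ v`, `0 ≤ τ ≤ r`, `v` a unit vector orthogonal to `e`, and `c ± r v ∈ K`.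
(4) The isometry `y ↦ y + ⟪c, e⟫ e` maps the projection into the section (`Isometry.hausdorffMeasure_image` or `IsometryEquiv`, monotonicity). -/
def StFlat : Prop := ∀ (n : ℕ), 2 ≤ n → ∀ (K : Set (EuclideanSpace ℝ (Fin n))) (e c : EuclideanSpace ℝ (Fin n)) (r ε d : ℝ),
  Convex ℝ K → IsCompact K → K.Nonempty → ‖e‖ = 1 → 0 < ε → 0 ≤ d →
  (∀ u : EuclideanSpace ℝ (Fin n), ‖u‖ = 1 → |(inner ℝ u e : ℝ)| < ε →
    IsLUB ((fun x => (inner ℝ x u : ℝ)) '' K) ((inner ℝ c u : ℝ) + r)) →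
  Measure.hausdorffMeasure d ((fun x : EuclideanSpace ℝ (Fin n) => x - (inner ℝ x e : ℝ) • e) '' K) ≤
    Measure.hausdorffMeasure d (K ∩ {x : EuclideanSpace ℝ (Fin n) | (inner ℝ x e : ℝ) = (inner ℝ c e : ℝ)})

/-- MODULE SEC.  A section is not larger than the projection.
Proof.  The section at the level `t` is mapped by the isometry `y ↦ y - t e` into the projection (`x - t e = x - ⟪x, e⟫ e`). -/
def StSec : Prop := ∀ (n : ℕ) (K : Set (EuclideanSpace ℝ (Fin n))) (e : EuclideanSpace ℝ (Fin n)) (d t : ℝ), 0 ≤ d → ‖e‖ = 1 →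
  Measure.hausdorffMeasure d (K ∩ {x : EuclideanSpace ℝ (Fin n) | (inner ℝ x e : ℝ) = t}) ≤
  Measure.hausdorffMeasure d ((fun x : EuclideanSpace ℝ (Fin n) => x - (inner ℝ x e : ℝ) • e) '' K)

/-- MODULE TRL.  StZeroL for a body with an interior point `x0`, any dimension `n ≥ 3`.
Proof: copy of `Pool/Agent/Helper51/PSB/M_Main.lean` (`K - x0`, polynomial `p - ∑ x0_l X_l`; then `c + x0`). -/
def StTrl : Prop := ∀ (n : ℕ), 3 ≤ n → ∀ (K : Set (EuclideanSpace ℝ (Fin n))) (p : MvPolynomial (Fin n) ℝ) (A : ENNReal)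
  (e : EuclideanSpace ℝ (Fin n)) (ε : ℝ), Convex ℝ K → IsCompact K → (interior K).Nonempty → ‖e‖ = 1 → 0 < ε →
  (∀ u : EuclideanSpace ℝ (Fin n), ‖u‖ = 1 → |(inner ℝ u e : ℝ)| < ε →
    IsLUB ((fun x => (inner ℝ x u : ℝ)) '' K) (MvPolynomial.eval (fun l => u l) p)) →
  (∀ u : EuclideanSpace ℝ (Fin n), ‖u‖ = 1 →
    Measure.hausdorffMeasure ((n : ℝ) - 1) ((fun x : EuclideanSpace ℝ (Fin n) => x - (inner ℝ x u : ℝ) • u) '' K) = A) →
  ∃ (c : EuclideanSpace ℝ (Fin n)) (r : ℝ), ∀ u : EuclideanSpace ℝ (Fin n), ‖u‖ = 1 → |(inner ℝ u e : ℝ)| < ε →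
    IsLUB ((fun x => (inner ℝ x u : ℝ)) '' K) ((inner ℝ c u : ℝ) + r)

end Pool.Helper51.LPS
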